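import Mathlib

set_option autoImplicit false
open MvPolynomial

namespace Pool.Agent.H40R3.Hald

variable {N : ℕ}

/-- The factor `1/√2`. -/
noncomputable def r : ℂ := ((Real.sqrt 2 : ℝ) : ℂ)⁻¹

/-- Passage to the relative/centre coordinates of the pair `i j`. -/
noncomputable def sb (i j : Fin N) : Fin N → MvPolynomial (Fin N) ℂ :=
  fun k => (if k = i then
                  MvPolynomial.C (((Real.sqrt 2 : ℝ) : ℂ)⁻¹) *
                    (MvPolynomial.X i + MvPolynomial.X j)
                else if k = j then
                  MvPolynomial.C (((Real.sqrt 2 : ℝ) : ℂ)⁻¹) *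
                    (MvPolynomial.X i - MvPolynomial.X j)
                else MvPolynomial.X k : MvPolynomial (Fin N) ℂ)

noncomputable def T (i j : Fin N) : MvPolynomial (Fin N) ℂ →ₐ[ℂ] MvPolynomial (Fin N) ℂ :=
  aeval (sb i j)

lemma r_ne : r ≠ 0 := by
  unfold r
  have : (Real.sqrt 2 : ℝ) ≠ 0 := by positivity
  exact inv_ne_zero (by exact_mod_cast this)

lemma norm_r_sq : ‖r‖ ^ 2 = 1 / 2 := by
  unfold r
  rw [norm_inv, Complex.norm_real, Real.norm_eq_abs, inv_pow, sq_abs, Real.sq_sqrt (by norm_num)]
  norm_num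

lemma sb_i (i j : Fin N) : sb i j i = C r * (X i + X j) := by simp [sb, r]

lemma sb_j (i j : Fin N) (hij : i ≠ j) : sb i j j = C r * (X i - X j) := by
  simp [sb, r, hij.symm]

lemma sb_k (i j k : Fin N) (h1 : k ≠ i) (h2 : k ≠ j) : sb i j k = X k := by simp [sb, h1, h2]

lemma wh_sb (i j : Fin N) (hij : i ≠ j) (v : Fin N → ℕ) (hv : v i = v j) (l : Fin N) :
    IsWeightedHomogeneous v (sb i j l) (v l) := by
  by_cases h1 : l = i
  · subst h1
    rw [sb_i]
    apply IsWeightedHomogeneous.C_mul
    apply IsWeightedHomogeneous.add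
    · exact isWeightedHomogeneous_X _ _ _
    · rw [hv]; exact isWeightedHomogeneous_X _ _ _
  · by_cases h2 : l = j
    · subst h2
      rw [sb_j i l hij]
      apply IsWeightedHomogeneous.C_mul
      apply IsWeightedHomogeneous.sub
      · rw [← hv]; exact isWeightedHomogeneous_X _ _ _
      · exact isWeightedHomogeneous_X _ _ _
    · rw [sb_k i j l h1 h2]
      exact isWeightedHomogeneous_X _ _ _

lemma wh_T (i j : Fin N) (hij : i ≠ j) (v : Fin N → ℕ) (hv : v i = v j) (α : Fin N →₀ ℕ) :
    IsWeightedHomogeneous v (T i j (monomial α 1)) (Finsupp.weight v α) := by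
  unfold T
  rw [aeval_monomial, map_one, one_mul, Finsupp.weight_apply, Finsupp.prod, Finsupp.sum]
  apply IsWeightedHomogeneous.prod
  intro k _
  exact (wh_sb i j hij v hv k).pow _

lemma weight_eq_sum (v : Fin N → ℕ) (α : Fin N →₀ ℕ) :
    Finsupp.weight v α = ∑ k, α k * v k := by
  rw [Finsupp.weight_apply, Finsupp.sum_fintype]
  · simp
  · simp

lemma coeff_T_ne (i j : Fin N) (hij : i ≠ j) (v : Fin N → ℕ) (hv : v i = v j)
    (α β : Fin N →₀ ℕ) (h : coeff β (T i j (monomial α 1)) ≠ 0) :
    ∑ k, β k * v k = ∑ k, α k * v k := by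
  have := wh_T i j hij v hv α h
  rwa [weight_eq_sum, weight_eq_sum] at this

lemma T_mon (i j : Fin N) (μ : Fin N →₀ ℕ) (hi : μ i = 0) (hj : μ j = 0) :
    T i j (monomial μ 1) = monomial μ 1 := by
  unfold T
  rw [aeval_monomial, monomial_eq, map_one, C_1]
  congr 1
  unfold Finsupp.prod
  apply Finset.prod_congr rfl
  intro k hk
  have hk' : μ k ≠ 0 := Finsupp.mem_support_iff.1 hk
  show sb i j k ^ μ k = X k ^ μ k
  rw [sb_k i j k]
  · rintro rfl; exact hk' hi
  · rintro rfl; exact hk' hj

lemma coefPow (i j : Fin N) (hij : i ≠ j) (ε : ℂ) (n : ℕ) (hn : 2 ≤ n) (β : Fin N →₀ ℕ)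
    (hβ : β j = 2) :
    coeff β ((X i + C ε * X j : MvPolynomial (Fin N) ℂ) ^ n) =
      if β = Finsupp.single i (n - 2) + Finsupp.single j 2 then (n.choose 2 : ℂ) * ε ^ 2 else 0 := by
  classical
  rw [add_pow, coeff_sum]
  have hterm : ∀ m ∈ Finset.range (n + 1),
      coeff β ((X i : MvPolynomial (Fin N) ℂ) ^ m * (C ε * X j) ^ (n - m) * (n.choose m : MvPolynomial (Fin N) ℂ))
        = if Finsupp.single i m + Finsupp.single j (n - m) = β then
            (n.choose m : ℂ) * ε ^ (n - m) else 0 := by
    intro m _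
    have h1 : (X i : MvPolynomial (Fin N) ℂ) ^ m * (C ε * X j) ^ (n - m) *
        (n.choose m : MvPolynomial (Fin N) ℂ) =
        monomial (Finsupp.single i m + Finsupp.single j (n - m)) ((n.choose m : ℂ) * ε ^ (n - m)) := by
      rw [mul_pow, ← C_pow, X_pow_eq_monomial, X_pow_eq_monomial]
      have : (n.choose m : MvPolynomial (Fin N) ℂ) = C (n.choose m : ℂ) := by simp
      rw [this, ← mul_assoc, mul_comm _ (C (ε ^ (n-m))), C_mul_monomial, monomial_mul,
        mul_comm _ (C _), C_mul_monomial]
      congr 1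
      ring
    rw [h1, coeff_monomial]
  rw [Finset.sum_congr rfl hterm]
  by_cases hb : β = Finsupp.single i (n - 2) + Finsupp.single j 2
  · rw [if_pos hb, Finset.sum_eq_single (n - 2)]
    · have : n - (n - 2) = 2 := by omega
      rw [this, if_pos hb.symm, Nat.choose_symm hn]
    · intro m hm hne
      rw [if_neg]
      intro h
      have h2 := DFunLike.congr_fun h j
      simp [hβ, Finsupp.single_apply, hij] at h2
      have := Finset.mem_range.1 hm
      omega
    · intro h
      exfalso; apply h
      rw [Finset.mem_range]; omega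
  · rw [if_neg hb]
    apply Finset.sum_eq_zero
    intro m hm
    rw [if_neg]
    intro h
    apply hb
    have h2 := DFunLike.congr_fun h j
    simp [hβ, Finsupp.single_apply, hij] at h2
    have hm' := Finset.mem_range.1 hm
    have : m = n - 2 := by omega
    rw [← h, h2, this]

lemma coeff_Ti (i j : Fin N) (hij : i ≠ j) (μ : Fin N →₀ ℕ) (hi : μ i = 0) (hj : μ j = 0) (s : ℕ)
    (hs : 2 ≤ s) :
    coeff (μ + (Finsupp.single i (s - 2) + Finsupp.single j 2))
      (T i j (monomial (μ + Finsupp.single i s) 1)) = r ^ s * (s.choose 2 : ℂ) := by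
  have h1 : (monomial (μ + Finsupp.single i s) (1 : ℂ)) = monomial μ 1 * X i ^ s := by
    rw [X_pow_eq_monomial, monomial_mul, one_mul]
  rw [h1, map_mul, T_mon i j μ hi hj, coeff_monomial_mul, one_mul, map_pow]
  have h2 : T i j (X i) = C r * (X i + C 1 * X j) := by
    unfold T; rw [aeval_X, sb_i, C_1, one_mul]
  rw [h2, mul_pow, ← C_pow, coeff_C_mul, coefPow i j hij 1 s hs _ (by simp [hij]), if_pos rfl]
  simp

lemma coeff_Tj (i j : Fin N) (hij : i ≠ j) (μ : Fin N →₀ ℕ) (hi : μ i = 0) (hj : μ j = 0) (s : ℕ)
    (hs : 2 ≤ s) :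
    coeff (μ + (Finsupp.single i (s - 2) + Finsupp.single j 2))
      (T i j (monomial (μ + Finsupp.single j s) 1)) = r ^ s * (s.choose 2 : ℂ) := by
  have h1 : (monomial (μ + Finsupp.single j s) (1 : ℂ)) = monomial μ 1 * X j ^ s := by
    rw [X_pow_eq_monomial, monomial_mul, one_mul]
  rw [h1, map_mul, T_mon i j μ hi hj, coeff_monomial_mul, one_mul, map_pow]
  have h2 : T i j (X j) = C r * (X i + C (-1) * X j) := by
    unfold T; rw [aeval_X, sb_j i j hij, C_neg, C_1]; ring
  rw [h2, mul_pow, ← C_pow, coeff_C_mul, coefPow i j hij (-1) s hs _ (by simp [hij]), if_pos rfl]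
  simp

lemma coeff_T_sum (i j : Fin N) (β : Fin N →₀ ℕ) (h : MvPolynomial (Fin N) ℂ) :
    coeff β (T i j h) = ∑ α ∈ h.support, coeff α h * coeff β (T i j (monomial α 1)) := by
  conv_lhs => rw [h.as_sum]
  rw [map_sum, coeff_sum]
  apply Finset.sum_congr rfl
  intro α _
  have : monomial α (coeff α h) = C (coeff α h) * monomial α 1 := by
    rw [C_mul_monomial, mul_one]
  rw [this, map_mul]
  have h2 : T i j (C (coeff α h)) = C (coeff α h) := by
    unfold T; simp
  rw [h2, coeff_C_mul]

lemma step (h : MvPolynomial (Fin N) ℂ) (i j : Fin N) (hij : i ≠ j)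
    (hker : ∀ β : Fin N →₀ ℕ, β j = 2 → coeff β (T i j h) = 0)
    (μ : Fin N →₀ ℕ) (hi : μ i = 0) (hj : μ j = 0) (s : ℕ) (hs : 2 ≤ s)
    (IH : ∀ α : Fin N →₀ ℕ, (∀ k, k ≠ i → k ≠ j → α k = μ k) → α i + α j = s → α i ≠ 0 →
      α j ≠ 0 → coeff α h = 0) :
    coeff (μ + Finsupp.single i s) h + coeff (μ + Finsupp.single j s) h = 0 := by
  classical
  set β := μ + (Finsupp.single i (s - 2) + Finsupp.single j 2) with hβ
  have hβj : β j = 2 := by simp [hβ, hj, hij]
  have h0 := hker β hβj
  rw [coeff_T_sum] at h0
  set α0 := μ + Finsupp.single i s with hα0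
  set α1 := μ + Finsupp.single j s with hα1
  have hne : α0 ≠ α1 := by
    intro he
    have := DFunLike.congr_fun he i
    simp [hα0, hα1, hi, hij.symm] at this
    omega
  set f : (Fin N →₀ ℕ) → ℂ := fun α => coeff α h * coeff β (T i j (monomial α 1)) with hf
  have hvan : ∀ α, α ∉ ({α0, α1} : Finset (Fin N →₀ ℕ)) → f α = 0 := by
    intro α hα
    by_cases hL : coeff β (T i j (monomial α 1)) = 0
    · simp [hf, hL]
    · have hk : ∀ k, k ≠ i → k ≠ j → α k = μ k := by
        intro k hki hkj
        have := coeff_T_ne i j hij (fun l => if l = k then 1 else 0) (by simp [hki.symm, hkj.symm]) α β hL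
        simp at this
        rw [← this]
        simp [hβ, hki, hkj, Finsupp.single_apply, hki.symm, hkj.symm]
      have hsum : α i + α j = s := by
        have := coeff_T_ne i j hij (fun l => if l = i ∨ l = j then 1 else 0) (by simp) α β hL
        have hsplit : ∀ γ : Fin N →₀ ℕ, ∑ k, γ k * (if k = i ∨ k = j then 1 else 0) = γ i + γ j := by
          intro γ
          rw [← Finset.sum_subset (Finset.subset_univ ({i, j} : Finset (Fin N)))]
          · rw [Finset.sum_pair hij]; simp
          · intro k _ hk
            simp at hk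
            simp [hk.1, hk.2]
        rw [hsplit, hsplit] at this
        rw [← this]
        simp [hβ, hi, hj, hij, hij.symm]
        omega
      have hai : α i ≠ 0 := by
        intro h0
        apply hα
        simp only [Finset.mem_insert, Finset.mem_singleton]
        right
        ext k
        by_cases h1 : k = i
        · subst h1; simp [hα1, hi, h0, hij.symm]
        · by_cases h2 : k = j
          · subst h2; simp [hα1, hj]; omega
          · rw [hk k h1 h2]; simp [hα1, Finsupp.single_apply, Ne.symm h2]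
      have haj : α j ≠ 0 := by
        intro h0
        apply hα
        simp only [Finset.mem_insert, Finset.mem_singleton]
        left
        ext k
        by_cases h1 : k = i
        · subst h1; simp [hα0, hi]; omega
        · by_cases h2 : k = j
          · subst h2; simp [hα0, hj, h0, hij]
          · rw [hk k h1 h2]; simp [hα0, Finsupp.single_apply, Ne.symm h1]
      have := IH α hk hsum hai haj
      simp [hf, this]
  have hS : ∑ α ∈ h.support, f α = ∑ α ∈ ({α0, α1} : Finset (Fin N →₀ ℕ)), f α := by
    rw [Finset.sum_subset (Finset.subset_union_left : h.support ⊆ h.support ∪ {α0, α1})]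
    · symm
      apply Finset.sum_subset Finset.subset_union_right
      intro α _ h2
      exact hvan α h2
    · intro α _ h2
      have : coeff α h = 0 := notMem_support_iff.1 h2
      simp [hf, this]
  rw [hS, Finset.sum_pair hne] at h0
  simp only [hf] at h0
  rw [hα0, hα1, coeff_Ti i j hij μ hi hj s hs, coeff_Tj i j hij μ hi hj s hs, ← add_mul] at h0
  rcases mul_eq_zero.1 h0 with h1 | h1
  · exact h1
  · exfalso
    rcases mul_eq_zero.1 h1 with h2 | h2
    · exact pow_ne_zero _ r_ne h2
    · have : s.choose 2 ≠ 0 := (Nat.choose_pos hs).ne'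
      exact this (by exact_mod_cast h2)

lemma key (h : MvPolynomial (Fin N) ℂ)
    (hsym : ∀ σ : Equiv.Perm (Fin N), rename (⇑σ) h = h)
    (hker : ∀ i j : Fin N, i < j → ∀ β : Fin N →₀ ℕ, β j = 2 → coeff β (T i j h) = 0)
    (h1 : ∀ α : Fin N →₀ ℕ, (∀ k, α k = 1) → coeff α h = 0) :
    ∀ (n : ℕ) (α : Fin N →₀ ℕ), N - α.support.card = n → ∑ k, α k = N → coeff α h = 0 := by
  classical
  intro n
  induction' n using Nat.strong_induction_on with n IH
  intro α hn hsum
  by_cases hfull : ∀ k, α k ≠ 0
  · apply h1
    have hge : ∀ k, 1 ≤ α k := fun k => Nat.one_le_iff_ne_zero.2 (hfull k)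
    have hs : ∑ k : Fin N, (α k - 1) = 0 := by
      have h2 : ∑ k : Fin N, (α k - 1) + ∑ _k : Fin N, 1 = ∑ k, α k := by
        rw [← Finset.sum_add_distrib]
        apply Finset.sum_congr rfl
        intro k _
        have := hge k
        omega
      rw [hsum] at h2
      have h3 : ∑ _k : Fin N, 1 = N := by simp
      omega
    intro k
    have h2 := Finset.sum_eq_zero_iff.1 hs k (Finset.mem_univ _)
    have h3 := hge k
    omega
  · push Not at hfull
    obtain ⟨j0, hj0⟩ := hfull
    have hex : ∃ i0, 2 ≤ α i0 := by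
      by_contra hcon
      push Not at hcon
      have hlt : ∑ k, α k < ∑ _k : Fin N, 1 := by
        apply Finset.sum_lt_sum
        · intro k _
          have := hcon k
          omega
        · exact ⟨j0, Finset.mem_univ _, by omega⟩
      have h3 : ∑ _k : Fin N, 1 = N := by simp
      omega
    obtain ⟨i0, hi0⟩ := hex
    have hne : i0 ≠ j0 := by
      rintro rfl
      omega
    obtain ⟨s, hs⟩ : ∃ s, s = α i0 := ⟨_, rfl⟩
    obtain ⟨μ, hμ⟩ : ∃ μ, μ = α.erase i0 := ⟨_, rfl⟩
    have hα : α = μ + Finsupp.single i0 s := by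
      rw [hμ, hs]
      exact (Finsupp.erase_add_single i0 α).symm
    have hμi : μ i0 = 0 := by rw [hμ]; simp
    have hμj : μ j0 = 0 := by rw [hμ, Finsupp.erase_ne hne.symm, hj0]
    have hμk : ∀ k, k ≠ i0 → μ k = α k := by
      intro k hk
      rw [hμ, Finsupp.erase_ne hk]
    have IH' : ∀ α' : Fin N →₀ ℕ, (∀ k, k ≠ i0 → k ≠ j0 → α' k = μ k) → α' i0 + α' j0 = s →
        α' i0 ≠ 0 → α' j0 ≠ 0 → coeff α' h = 0 := by
      intro α' hk hs' hi' hj'
      have hss : α.support ⊂ α'.support := by
        rw [Finset.ssubset_iff_of_subset]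
        · exact ⟨j0, by simpa using hj', by simpa using hj0⟩
        · intro k hk1
          have hk2 : α k ≠ 0 := by simpa using hk1
          by_cases e1 : k = i0
          · subst e1; simpa using hi'
          · by_cases e2 : k = j0
            · subst e2; simpa using hj'
            · have := hk k e1 e2
              rw [hμk k e1] at this
              simpa [this] using hk2
      have hcard := Finset.card_lt_card hss
      have hle : α'.support.card ≤ N := by
        have := Finset.card_le_univ α'.support
        simpa using this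
      apply IH (N - α'.support.card) (by omega) α' rfl
      refine Eq.trans ?_ hsum
      rw [← Finset.sum_add_sum_compl ({i0, j0} : Finset (Fin N)) (fun k => α' k),
        ← Finset.sum_add_sum_compl ({i0, j0} : Finset (Fin N)) (fun k => α k),
        Finset.sum_pair hne, Finset.sum_pair hne]
      congr 1
      · omega
      · apply Finset.sum_congr rfl
        intro k hk1
        simp only [Finset.mem_compl, Finset.mem_insert, Finset.mem_singleton, not_or] at hk1
        rw [hk k hk1.1 hk1.2, hμk k hk1.1]
    have hswap : coeff (μ + Finsupp.single j0 s) h = coeff (μ + Finsupp.single i0 s) h := by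
      have h2 := coeff_rename_mapDomain (⇑(Equiv.swap i0 j0)) (Equiv.injective _) h
        (μ + Finsupp.single i0 s)
      rw [hsym, Finsupp.mapDomain_add, Finsupp.mapDomain_single, Equiv.swap_apply_left] at h2
      have h3 : Finsupp.mapDomain (⇑(Equiv.swap i0 j0)) μ = μ := by
        ext k
        rw [Finsupp.mapDomain_equiv_apply, Equiv.symm_swap]
        by_cases e1 : k = i0
        · subst e1; rw [Equiv.swap_apply_left, hμi, hμj]
        · by_cases e2 : k = j0
          · subst e2; rw [Equiv.swap_apply_right, hμi, hμj]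
          · rw [Equiv.swap_apply_of_ne_of_ne e1 e2]
      rw [h3] at h2
      exact h2
    have hstep : coeff (μ + Finsupp.single i0 s) h + coeff (μ + Finsupp.single j0 s) h = 0 := by
      rcases lt_or_gt_of_ne hne with hlt | hgt
      · exact step h i0 j0 hne (hker i0 j0 hlt) μ hμi hμj s (hs ▸ hi0) IH'
      · have h2 := step h j0 i0 hne.symm (hker j0 i0 hgt) μ hμj hμi s (hs ▸ hi0)
          (fun α' hk hs' hi' hj' => IH' α' (fun k h1 h2 => hk k h2 h1) (by omega) hj' hi')
        rw [add_comm]
        exact h2
    rw [hswap] at hstep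
    rw [hα]
    have h2 : (2 : ℂ) * coeff (μ + Finsupp.single i0 s) h = 0 := by linear_combination hstep
    rcases mul_eq_zero.1 h2 with h3 | h3
    · norm_num at h3
    · exact h3

/-- multinomial coefficients of a power of `X_1+...+X_N` -/
lemma coeff_Zpow (n : ℕ) : ∀ α : Fin N →₀ ℕ, ∑ k, α k = n →
    coeff α ((∑ k : Fin N, (X k : MvPolynomial (Fin N) ℂ)) ^ n) *
      ∏ k : Fin N, ((Nat.factorial (α k) : ℕ) : ℂ) = (Nat.factorial n : ℂ) := by
  classical
  induction' n with n IH
  · intro α hα
    have h0 : α = 0 := by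
      ext k
      exact Finset.sum_eq_zero_iff.1 hα k (Finset.mem_univ _)
    subst h0
    simp
  · intro α hα
    rw [pow_succ', Finset.sum_mul, coeff_sum, Finset.sum_mul]
    have hterm : ∀ k ∈ (Finset.univ : Finset (Fin N)),
        coeff α ((X k : MvPolynomial (Fin N) ℂ) * (∑ l : Fin N, X l) ^ n) *
          ∏ l : Fin N, ((Nat.factorial (α l) : ℕ) : ℂ) = (α k : ℂ) * (Nat.factorial n : ℂ) := by
      intro k _
      rw [coeff_X_mul']
      by_cases hk : k ∈ α.support
      · rw [if_pos hk]
        have hk' : α k ≠ 0 := by simpa using hk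
        have hsub : ∑ l, (α - Finsupp.single k 1 : Fin N →₀ ℕ) l = n := by
          have h1 : ∀ l, (α - Finsupp.single k 1 : Fin N →₀ ℕ) l + (if l = k then 1 else 0) = α l := by
            intro l
            rw [Finsupp.tsub_apply]
            by_cases e : l = k
            · subst e; simp; omega
            · simp [Finsupp.single_apply, e, Ne.symm e]
          have h2 : ∑ l, (α - Finsupp.single k 1 : Fin N →₀ ℕ) l + ∑ l : Fin N, (if l = k then 1 else 0) = n + 1 := by
            rw [← Finset.sum_add_distrib, ← hα]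
            exact Finset.sum_congr rfl (fun l _ => h1 l)
          simp only [Finset.sum_ite_eq', Finset.mem_univ, if_true] at h2
          omega
        have h3 := IH _ hsub
        have h4 : ∏ l : Fin N, ((Nat.factorial (α l) : ℕ) : ℂ) =
            (α k : ℂ) * ∏ l : Fin N, ((Nat.factorial ((α - Finsupp.single k 1 : Fin N →₀ ℕ) l) : ℕ) : ℂ) := by
          rw [← Finset.mul_prod_erase _ _ (Finset.mem_univ k),
            ← Finset.mul_prod_erase (Finset.univ : Finset (Fin N))
              (fun l => ((Nat.factorial ((α - Finsupp.single k 1 : Fin N →₀ ℕ) l) : ℕ) : ℂ)) (Finset.mem_univ k),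
            ← mul_assoc]
          congr 1
          · rw [Finsupp.tsub_apply, Finsupp.single_eq_same]
            obtain ⟨m, hm⟩ := Nat.exists_eq_succ_of_ne_zero hk'
            rw [hm, Nat.succ_eq_add_one, Nat.add_sub_cancel, Nat.factorial_succ]
            push_cast; ring
          · apply Finset.prod_congr rfl
            intro l hl
            have hl' : l ≠ k := Finset.ne_of_mem_erase hl
            rw [Finsupp.tsub_apply, Finsupp.single_apply, if_neg (Ne.symm hl'), Nat.sub_zero]
        rw [h4, ← h3]; ring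
      · rw [if_neg hk]
        have hk' : α k = 0 := by simpa using hk
        rw [hk']; simp
    rw [Finset.sum_congr rfl hterm, ← Finset.sum_mul, Nat.factorial_succ]
    have : ∑ k, (α k : ℂ) = ((n + 1 : ℕ) : ℂ) := by
      rw [← hα]; push_cast; rfl
    rw [this]; push_cast; ring

end Pool.Agent.H40R3.Hald
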