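import Mathlib
import Pool.Agent.H40R3.Hald1

set_option autoImplicit false
open MvPolynomial

namespace Pool.Agent.H40R3.Hald

variable {N : ℕ}

/-- Sum of all variables. -/
noncomputable def Z (N : ℕ) : MvPolynomial (Fin N) ℂ := ∑ k : Fin N, X k

noncomputable def kap (N : ℕ) : ℂ := ((N : ℂ) ^ (N - 1))⁻¹

/-- the trial state: one particle in orbital `N`, the others in orbital `0`, made orthogonal to the
centre of mass state -/
noncomputable def psi (N : ℕ) : MvPolynomial (Fin N) ℂ :=
  ∑ k : Fin N, X k ^ N - C (kap N) * (Z N) ^ N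

lemma psi_symm (σ : Equiv.Perm (Fin N)) : rename (⇑σ) (psi N) = psi N := by
  unfold psi Z
  simp only [map_sub, map_sum, map_pow, rename_X, map_mul, rename_C]
  rw [Equiv.sum_comp σ (fun k => (X k : MvPolynomial (Fin N) ℂ) ^ N),
    Equiv.sum_comp σ (fun k => (X k : MvPolynomial (Fin N) ℂ))]

lemma Z_hom : (Z N).IsHomogeneous 1 := by
  unfold Z
  exact IsHomogeneous.sum _ _ _ (fun k _ => isHomogeneous_X _ _)

lemma psi_hom : (psi N).IsHomogeneous N := by
  unfold psi
  apply IsHomogeneous.sub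
  · apply IsHomogeneous.sum
    intro k _
    simpa using (isHomogeneous_X ℂ k).pow N
  · apply IsHomogeneous.C_mul
    simpa using (Z_hom (N := N)).pow N

lemma psi_coeff_ne (α : Fin N →₀ ℕ) (h : coeff α (psi N) ≠ 0) : ∑ k, α k = N := by
  by_contra hne
  apply h
  apply psi_hom.coeff_eq_zero
  rwa [Finsupp.degree_eq_sum]

lemma psi_deg (hN : 2 ≤ N) : (psi N).totalDegree ≤ 4 * N * (N - 1) / 2 := by
  have h1 : (psi N).totalDegree ≤ N := psi_hom.totalDegree_le
  refine h1.trans ?_
  rw [Nat.le_div_iff_mul_le (by norm_num)]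
  obtain ⟨m, rfl⟩ : ∃ m, N = m + 2 := ⟨N - 2, by omega⟩
  have : m + 2 - 1 = m + 1 := by omega
  rw [this]
  nlinarith

/-- the transformed power of Z has no relative excitation -/
lemma T_Z_coeff (i j : Fin N) (hij : i ≠ j) (n : ℕ) (β : Fin N →₀ ℕ) (hβ : β j = 2) :
    coeff β (T i j ((Z N) ^ n)) = 0 := by
  classical
  have hTZ : T i j (Z N) = C (2 * r) * X i + ∑ k ∈ ({i, j} : Finset (Fin N))ᶜ, X k := by
    unfold Z
    rw [map_sum]
    have : ∀ k, T i j (X k) = sb i j k := by
      intro k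
      unfold T
      rw [aeval_X]
    simp only [this]
    rw [← Finset.sum_add_sum_compl ({i, j} : Finset (Fin N)), Finset.sum_pair hij, sb_i,
      sb_j i j hij]
    congr 1
    · rw [C_mul, show (C (2:ℂ) : MvPolynomial (Fin N) ℂ) = 2 from map_ofNat C 2]
      ring
    · apply Finset.sum_congr rfl
      intro k hk
      simp only [Finset.mem_compl, Finset.mem_insert, Finset.mem_singleton, not_or] at hk
      exact sb_k i j k hk.1 hk.2
  have hw : IsWeightedHomogeneous (fun l : Fin N => if l = j then 1 else 0) (T i j (Z N)) 0 := by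
    rw [hTZ]
    apply IsWeightedHomogeneous.add
    · apply IsWeightedHomogeneous.C_mul
      have := isWeightedHomogeneous_X ℂ (fun l : Fin N => if l = j then 1 else 0) i
      simpa [hij] using this
    · apply IsWeightedHomogeneous.sum
      intro k hk
      simp only [Finset.mem_compl, Finset.mem_insert, Finset.mem_singleton, not_or] at hk
      have := isWeightedHomogeneous_X ℂ (fun l : Fin N => if l = j then 1 else 0) k
      simpa [hk.2] using this
  rw [map_pow]
  have hw2 := hw.pow n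
  apply hw2.coeff_eq_zero
  rw [weight_eq_sum]
  simp [hβ]

lemma T_psi_coeff (hN : 3 ≤ N) (i j : Fin N) (hij : i ≠ j) (β : Fin N →₀ ℕ) (hβ : β j = 2) :
    coeff β (T i j (psi N)) =
      if β = Finsupp.single i (N - 2) + Finsupp.single j 2 then 2 * r ^ N * (N.choose 2 : ℂ)
      else 0 := by
  classical
  unfold psi
  rw [map_sub, coeff_sub, map_mul]
  have hC : T i j (C (kap N)) = C (kap N) := by unfold T; simp
  rw [hC, coeff_C_mul, T_Z_coeff i j hij N β hβ, mul_zero, sub_zero, map_sum, coeff_sum]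
  have hX : ∀ k, T i j (X k ^ N) = sb i j k ^ N := by
    intro k
    unfold T
    rw [map_pow, aeval_X]
  simp only [hX]
  rw [← Finset.sum_add_sum_compl ({i, j} : Finset (Fin N)), Finset.sum_pair hij, sb_i,
      sb_j i j hij]
  have h0 : ∑ k ∈ ({i, j} : Finset (Fin N))ᶜ, coeff β (sb i j k ^ N) = 0 := by
    apply Finset.sum_eq_zero
    intro k hk
    simp only [Finset.mem_compl, Finset.mem_insert, Finset.mem_singleton, not_or] at hk
    rw [sb_k i j k hk.1 hk.2, X_pow_eq_monomial, coeff_monomial, if_neg]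
    intro h
    have h2 := DFunLike.congr_fun h j
    rw [Finsupp.single_apply, if_neg hk.2, hβ] at h2
    omega
  rw [h0, add_zero]
  have e1 : (C r * (X i + X j) : MvPolynomial (Fin N) ℂ) ^ N = C (r ^ N) * (X i + C 1 * X j) ^ N := by
    rw [mul_pow, ← C_pow, C_1, one_mul]
  have e2 : (C r * (X i - X j) : MvPolynomial (Fin N) ℂ) ^ N = C (r ^ N) * (X i + C (-1) * X j) ^ N := by
    rw [mul_pow, ← C_pow, C_neg, C_1]
    congr 2
    ring
  rw [e1, e2, coeff_C_mul, coeff_C_mul, coefPow i j hij 1 N (by omega) β hβ,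
    coefPow i j hij (-1) N (by omega) β hβ]
  by_cases hb : β = Finsupp.single i (N - 2) + Finsupp.single j 2
  · rw [if_pos hb, if_pos hb, if_pos hb]; ring
  · rw [if_neg hb, if_neg hb, if_neg hb]; ring

lemma prod_fact (i j : Fin N) (hij : i ≠ j) (a b : ℕ) :
    ∏ k : Fin N, ((Nat.factorial ((Finsupp.single i a + Finsupp.single j b : Fin N →₀ ℕ) k) : ℕ) : ℝ)
      = (Nat.factorial a : ℝ) * (Nat.factorial b : ℝ) := by
  classical
  rw [← Finset.prod_mul_prod_compl ({i, j} : Finset (Fin N)), Finset.prod_pair hij]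
  have h0 : ∏ k ∈ ({i, j} : Finset (Fin N))ᶜ,
      ((Nat.factorial ((Finsupp.single i a + Finsupp.single j b : Fin N →₀ ℕ) k) : ℕ) : ℝ) = 1 := by
    apply Finset.prod_eq_one
    intro k hk
    simp only [Finset.mem_compl, Finset.mem_insert, Finset.mem_singleton, not_or] at hk
    simp [Finsupp.single_apply, Ne.symm hk.1, Ne.symm hk.2]
  rw [h0, mul_one]
  simp [hij, hij.symm]

/-- energy of a pair in the trial state -/
lemma pair_energy (hN : 3 ≤ N) (i j : Fin N) (hij : i ≠ j) :
    (Finset.filter (fun α : Fin N →₀ ℕ => α j = 2) (T i j (psi N)).support).sum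
      (fun α => ‖coeff α (T i j (psi N))‖ ^ 2 * ∏ k : Fin N, ((Nat.factorial (α k) : ℕ) : ℝ)) ≤
      (1 / 2 : ℝ) ^ N * 2 * (N * (N - 1)) * (Nat.factorial N : ℝ) := by
  classical
  set β0 : Fin N →₀ ℕ := Finsupp.single i (N - 2) + Finsupp.single j 2 with hβ0
  set f : (Fin N →₀ ℕ) → ℝ :=
    fun α => ‖coeff α (T i j (psi N))‖ ^ 2 * ∏ k : Fin N, ((Nat.factorial (α k) : ℕ) : ℝ) with hf
  have hfnn : ∀ α, 0 ≤ f α := by
    intro α
    apply mul_nonneg (sq_nonneg _)
    apply Finset.prod_nonneg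
    intro k _
    positivity
  have hval : f β0 = (1 / 2 : ℝ) ^ N * 2 * (N * (N - 1)) * (Nat.factorial N : ℝ) := by
    simp only [hf]
    rw [T_psi_coeff hN i j hij β0 (by simp [hβ0, hij]), if_pos rfl, hβ0, prod_fact i j hij]
    have h1 : ‖(2 : ℂ) * r ^ N * (N.choose 2 : ℂ)‖ ^ 2 = 4 * (1 / 2 : ℝ) ^ N * (N.choose 2 : ℝ) ^ 2 := by
      rw [norm_mul, norm_mul, norm_pow, mul_pow, mul_pow, ← pow_mul, mul_comm N 2, pow_mul, norm_r_sq,
        Complex.norm_natCast]
      norm_num
    rw [h1]
    have h2 : (N.choose 2 : ℝ) = N * (N - 1) / 2 := by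
      rw [Nat.cast_choose_two]
    obtain ⟨m, rfl⟩ : ∃ m, N = m + 2 := ⟨N - 2, by omega⟩
    have h3 : m + 2 - 2 = m := by omega
    have h4 : (Nat.factorial (m + 2) : ℝ) = (m + 2) * (m + 1) * (Nat.factorial m : ℝ) := by
      rw [Nat.factorial_succ, Nat.factorial_succ]; push_cast; ring
    rw [h3, h2, h4, show ((Nat.factorial 2 : ℕ) : ℝ) = 2 by norm_num [Nat.factorial]]
    push_cast
    ring
  by_cases hmem : β0 ∈ Finset.filter (fun α : Fin N →₀ ℕ => α j = 2) (T i j (psi N)).support
  · rw [Finset.sum_eq_single_of_mem β0 hmem]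
    · exact hval.le
    · intro α hα hne
      have hαj : α j = 2 := (Finset.mem_filter.1 hα).2
      have h5 := T_psi_coeff hN i j hij α hαj
      rw [if_neg hne] at h5
      simp [h5]
  · rw [Finset.sum_eq_zero]
    · rw [← hval]; exact hfnn _
    · intro α hα
      have hαj : α j = 2 := (Finset.mem_filter.1 hα).2
      have hne : α ≠ β0 := by
        rintro rfl
        exact hmem hα
      have h5 := T_psi_coeff hN i j hij α hαj
      rw [if_neg hne] at h5
      simp [h5]

/-- lower bound for the norm of the trial state -/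
lemma psi_norm (hN : 3 ≤ N) :
    (1 / 4 : ℝ) * (Nat.factorial N : ℝ) ≤
      (psi N).support.sum (fun α => ‖coeff α (psi N)‖ ^ 2 *
          ∏ k : Fin N, ((Nat.factorial (α k) : ℕ) : ℝ)) := by
  classical
  have i0 : Fin N := ⟨0, by omega⟩
  have hprodC : ∏ k : Fin N, ((Nat.factorial ((Finsupp.single i0 N : Fin N →₀ ℕ) k) : ℕ) : ℂ)
      = (Nat.factorial N : ℂ) := by
    rw [Finset.prod_eq_single i0]
    · simp
    · intro k _ hk
      simp [Finsupp.single_apply, Ne.symm hk]
    · intro h; exact absurd (Finset.mem_univ _) h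
  have hprodR : ∏ k : Fin N, ((Nat.factorial ((Finsupp.single i0 N : Fin N →₀ ℕ) k) : ℕ) : ℝ)
      = (Nat.factorial N : ℝ) := by
    rw [Finset.prod_eq_single i0]
    · simp
    · intro k _ hk
      simp [Finsupp.single_apply, Ne.symm hk]
    · intro h; exact absurd (Finset.mem_univ _) h
  have hsum : ∑ k, (Finsupp.single i0 N : Fin N →₀ ℕ) k = N := by
    simp [Finsupp.single_apply]
  have hZ : coeff (Finsupp.single i0 N) ((Z N) ^ N) = 1 := by
    have h := coeff_Zpow N (Finsupp.single i0 N) hsum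
    rw [hprodC] at h
    have hne : (Nat.factorial N : ℂ) ≠ 0 := by exact_mod_cast Nat.factorial_ne_zero N
    unfold Z
    exact mul_right_cancel₀ hne (by rw [h, one_mul])
  have hX : coeff (Finsupp.single i0 N) (∑ k : Fin N, (X k : MvPolynomial (Fin N) ℂ) ^ N) = 1 := by
    rw [coeff_sum, Finset.sum_eq_single i0]
    · rw [X_pow_eq_monomial, coeff_monomial, if_pos rfl]
    · intro k _ hk
      rw [X_pow_eq_monomial, coeff_monomial, if_neg]
      intro h
      have h2 := DFunLike.congr_fun h k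
      rw [Finsupp.single_eq_same, Finsupp.single_apply, if_neg (Ne.symm hk)] at h2
      omega
    · intro h; exact absurd (Finset.mem_univ _) h
  have hc : coeff (Finsupp.single i0 N) (psi N) = 1 - kap N := by
    unfold psi
    rw [coeff_sub, coeff_C_mul, hZ, hX, mul_one]
  have hk : ‖kap N‖ ≤ 1 / 2 := by
    unfold kap
    rw [norm_inv, norm_pow, Complex.norm_natCast]
    have h2 : (2 : ℝ) ≤ (N : ℝ) ^ (N - 1) := by
      have h3 : (N : ℝ) ^ 1 ≤ (N : ℝ) ^ (N - 1) :=
        pow_le_pow_right₀ (by exact_mod_cast (by omega : 1 ≤ N)) (by omega)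
      have h4 : (3 : ℝ) ≤ N := by exact_mod_cast hN
      rw [pow_one] at h3
      linarith
    rw [one_div]
    exact inv_anti₀ (by norm_num) h2
  have hn : (1 / 2 : ℝ) ≤ ‖coeff (Finsupp.single i0 N) (psi N)‖ := by
    rw [hc]
    have := norm_sub_norm_le (1 : ℂ) (kap N)
    rw [norm_one] at this
    linarith
  have hmem : (Finsupp.single i0 N : Fin N →₀ ℕ) ∈ (psi N).support := by
    rw [mem_support_iff]
    intro h
    rw [h, norm_zero] at hn
    norm_num at hn
  have hle := Finset.single_le_sum (s := (psi N).support)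
    (f := fun α : Fin N →₀ ℕ => ‖coeff α (psi N)‖ ^ 2 * ∏ k : Fin N, ((Nat.factorial (α k) : ℕ) : ℝ))
    (fun α _ => mul_nonneg (sq_nonneg _) (Finset.prod_nonneg (fun k _ => by positivity))) hmem
  refine le_trans ?_ hle
  beta_reduce
  rw [hprodR]
  apply mul_le_mul_of_nonneg_right _ (by positivity)
  nlinarith

/-- sum of the coefficients of the trial state -/
lemma psi_sum (hN : 3 ≤ N) : ∑ α ∈ (psi N).support, coeff α (psi N) = 0 := by
  have h1 : eval (fun _ : Fin N => (1 : ℂ)) (psi N) = 0 := by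
    unfold psi Z kap
    simp only [map_sub, map_sum, map_pow, eval_X, map_mul, eval_C, one_pow, Finset.sum_const,
      Finset.card_univ, Fintype.card_fin, nsmul_eq_mul, mul_one]
    have hN0 : (N : ℂ) ≠ 0 := by exact_mod_cast (by omega : N ≠ 0)
    have h2 : (N : ℂ) ^ N = (N : ℂ) ^ (N - 1) * N := by
      rw [← pow_succ]; congr 1; omega
    rw [h2, ← mul_assoc, inv_mul_cancel₀ (pow_ne_zero _ hN0), one_mul, sub_self]
  rw [eval_eq] at h1
  simpa using h1

/-- orthogonality of the trial state to the kernel -/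
lemma psi_orth (hN : 3 ≤ N) (φ : MvPolynomial (Fin N) ℂ)
    (hsym : ∀ σ : Equiv.Perm (Fin N), rename (⇑σ) φ = φ)
    (hker : ∀ i j : Fin N, i < j → ∀ β : Fin N →₀ ℕ, β j = 2 → coeff β (T i j φ) = 0) :
    φ.support.sum (fun α => (starRingEnd ℂ) (coeff α φ) *
          coeff α (psi N) * ∏ k : Fin N, ((Nat.factorial (α k) : ℕ) : ℂ)) = 0 := by
  classical
  set one : Fin N →₀ ℕ := Finsupp.equivFunOnFinite.symm (fun _ => 1) with hone
  have hone1 : ∀ k, one k = 1 := by intro k; simp [hone]
  have honesum : ∑ k, one k = N := by simp [hone1]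
  have hNf : (Nat.factorial N : ℂ) ≠ 0 := by exact_mod_cast Nat.factorial_ne_zero N
  have hZone : coeff one ((Z N) ^ N) = (Nat.factorial N : ℂ) := by
    have h := coeff_Zpow N one honesum
    simpa [hone1, Z] using h
  set t : ℂ := coeff one φ / (Nat.factorial N : ℂ) with ht
  set h : MvPolynomial (Fin N) ℂ := φ - C t * (Z N) ^ N with hh
  have hhsym : ∀ σ : Equiv.Perm (Fin N), rename (⇑σ) h = h := by
    intro σ
    rw [hh]
    simp only [map_sub, map_mul, map_pow, rename_C]
    rw [hsym σ]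
    congr 2
    congr 1
    unfold Z
    simp only [map_sum, rename_X]
    rw [Equiv.sum_comp σ (fun k => (X k : MvPolynomial (Fin N) ℂ))]
  have hhker : ∀ i j : Fin N, i < j → ∀ β : Fin N →₀ ℕ, β j = 2 → coeff β (T i j h) = 0 := by
    intro i j hij β hβ
    rw [hh, map_sub, coeff_sub, hker i j hij β hβ, map_mul]
    have hC : T i j (C t) = C t := by unfold T; simp
    rw [hC, coeff_C_mul, T_Z_coeff i j hij.ne N β hβ]
    simp
  have hh1 : ∀ α : Fin N →₀ ℕ, (∀ k, α k = 1) → coeff α h = 0 := by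
    intro α hα
    have : α = one := by ext k; rw [hα, hone1]
    rw [this, hh, coeff_sub, coeff_C_mul, hZone, ht]
    field_simp
    ring
  have hkey := key h hhsym hhker hh1
  have hb : ∀ α : Fin N →₀ ℕ, ∑ k, α k = N →
      coeff α φ * ∏ k : Fin N, ((Nat.factorial (α k) : ℕ) : ℂ) = t * (Nat.factorial N : ℂ) := by
    intro α hα
    have h1 := hkey _ α rfl hα
    rw [hh, coeff_sub, coeff_C_mul] at h1
    have h2 : coeff α φ = t * coeff α ((Z N) ^ N) := by linear_combination h1
    rw [h2, mul_assoc]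
    congr 1
    exact coeff_Zpow N α hα
  have hterm : ∀ α : Fin N →₀ ℕ, (starRingEnd ℂ) (coeff α φ) *
          coeff α (psi N) * ∏ k : Fin N, ((Nat.factorial (α k) : ℕ) : ℂ) =
          (starRingEnd ℂ) (t * (Nat.factorial N : ℂ)) * coeff α (psi N) := by
    intro α
    by_cases h0 : coeff α (psi N) = 0
    · simp [h0]
    · have hα := psi_coeff_ne α h0
      rw [← hb α hα, map_mul]
      have : (starRingEnd ℂ) (∏ k : Fin N, ((Nat.factorial (α k) : ℕ) : ℂ)) =
          ∏ k : Fin N, ((Nat.factorial (α k) : ℕ) : ℂ) := by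
        rw [map_prod]
        apply Finset.prod_congr rfl
        intro k _
        simp
      rw [this]; ring
  have h1 : φ.support.sum (fun α => (starRingEnd ℂ) (coeff α φ) *
          coeff α (psi N) * ∏ k : Fin N, ((Nat.factorial (α k) : ℕ) : ℂ)) =
      (φ.support ∪ (psi N).support).sum (fun α => (starRingEnd ℂ) (coeff α φ) *
          coeff α (psi N) * ∏ k : Fin N, ((Nat.factorial (α k) : ℕ) : ℂ)) := by
    apply Finset.sum_subset Finset.subset_union_left
    intro α _ h2
    have : coeff α φ = 0 := notMem_support_iff.1 h2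
    simp [this]
  rw [h1, Finset.sum_congr rfl (fun α _ => hterm α), ← Finset.mul_sum]
  have h2 : ∑ α ∈ φ.support ∪ (psi N).support, coeff α (psi N) =
      ∑ α ∈ (psi N).support, coeff α (psi N) := by
    symm
    apply Finset.sum_subset Finset.subset_union_right
    intro α _ h2
    exact notMem_support_iff.1 h2
  rw [h2, psi_sum hN, mul_zero]

end Pool.Agent.H40R3.Hald
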